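import Pool.Agent.X105.EC.Final

/-!
# MP_15dca6_an: the essential spectrum of an operator with only finite-codimensional invariant
subspaces is connected

Let `T` be a bounded operator on an infinite-dimensional complex Hilbert space all of whose
nontrivial closed invariant subspaces have finite codimension. Then the essential spectrum of `T`
(the spectrum of its image in the Calkin algebra) is connected (Q1: yes). In particular it is never
the boundary of an annulus (Q2: no).
-/

set_option autoImplicit false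

namespace Pool.Agent.Results.MP_15dca6_an.EssentialSpectrumConnected

/-- The class `Q(H)`: every closed subspace invariant under `T` other than `0` and `H` has finite
codimension. -/
def InQ {H : Type*} [NormedAddCommGroup H] [InnerProductSpace ℂ H] (T : H →L[ℂ] H) : Prop :=
  ∀ M : Submodule ℂ H, IsClosed (M : Set H) → (∀ x ∈ M, T x ∈ M) → M ≠ ⊥ → M ≠ ⊤ →
    FiniteDimensional ℂ (H ⧸ M)

/-- The essential spectrum: the image of `T - z` in the Calkin algebra `B(H) / K(H)` is not
invertible, that is, `T - z` has no two-sided inverse modulo the compact operators. -/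
def essSpectrum {H : Type*} [NormedAddCommGroup H] [InnerProductSpace ℂ H]
    (T : H →L[ℂ] H) : Set ℂ :=
  {z | ¬ ∃ B : H →L[ℂ] H,
    IsCompactOperator (B * (T - z • (1 : H →L[ℂ] H)) - 1 : H →L[ℂ] H) ∧
    IsCompactOperator ((T - z • (1 : H →L[ℂ] H)) * B - 1 : H →L[ℂ] H)}

/-- For every `T` in the class `Q(H)` the essential spectrum is (nonempty and) connected, and it is
not the boundary of an annulus. -/
theorem result {H : Type*} [NormedAddCommGroup H] [InnerProductSpace ℂ H] [CompleteSpace H]
    (hinf : ¬ FiniteDimensional ℂ H) (T : H →L[ℂ] H) (hT : InQ T) :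
    IsConnected (essSpectrum T) ∧
      ∀ (c : ℂ) (r R : ℝ), 0 < r → r < R →
        essSpectrum T ≠ {z | ‖z - c‖ = r} ∪ {z | ‖z - c‖ = R} := by
  have h : IsConnected (essSpectrum T) := Pool.Agent.X105.EC.main hT hinf
  refine ⟨h, fun c r R hr hrR he => ?_⟩
  rw [he] at h
  have h1 : IsPreconnected ((fun z : ℂ => ‖z - c‖) '' ({z | ‖z - c‖ = r} ∪ {z | ‖z - c‖ = R})) :=
    h.isPreconnected.image _ (by fun_prop)
  have h2 : r ∈ (fun z : ℂ => ‖z - c‖) '' ({z | ‖z - c‖ = r} ∪ {z | ‖z - c‖ = R}) :=
    ⟨c + (r : ℂ), Or.inl (by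
      show ‖c + (r : ℂ) - c‖ = r
      rw [add_sub_cancel_left, Complex.norm_real, Real.norm_of_nonneg hr.le]), by
      show ‖c + (r : ℂ) - c‖ = r
      rw [add_sub_cancel_left, Complex.norm_real, Real.norm_of_nonneg hr.le]⟩
  have h3 : R ∈ (fun z : ℂ => ‖z - c‖) '' ({z | ‖z - c‖ = r} ∪ {z | ‖z - c‖ = R}) :=
    ⟨c + (R : ℂ), Or.inr (by
      show ‖c + (R : ℂ) - c‖ = R
      rw [add_sub_cancel_left, Complex.norm_real, Real.norm_of_nonneg (hr.trans hrR).le]), by
      show ‖c + (R : ℂ) - c‖ = R
      rw [add_sub_cancel_left, Complex.norm_real, Real.norm_of_nonneg (hr.trans hrR).le]⟩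
  obtain ⟨z, hz, hz'⟩ := h1.Icc_subset h2 h3
    (show (r + R) / 2 ∈ Set.Icc r R from ⟨by linarith, by linarith⟩)
  rcases hz with hz | hz
  · have : ‖z - c‖ = r := hz
    have h4 : ‖z - c‖ = (r + R) / 2 := hz'
    linarith
  · have : ‖z - c‖ = R := hz
    have h4 : ‖z - c‖ = (r + R) / 2 := hz'
    linarith

end Pool.Agent.Results.MP_15dca6_an.EssentialSpectrumConnected
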